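import Pool.Agent.Run7.h204.ClkMain

open Run7.h204.Clk

namespace Pool.Agent.Results.MP_3119c3_an.NotClarkMatrix

/-- Q1 answered in the negative, in every dimension `n ≥ 3`: there is a complex symmetric
`n × n` matrix which is unitarily equivalent to a truncated Toeplitz operator on an
`n`-dimensional model space, but which is not the matrix of any truncated Toeplitz operator
with respect to any modified Aleksandrov-Clark basis of any model space. -/
theorem result (n : ℕ) (hn : 3 ≤ n) :
    ∃ M : Matrix (Fin n) (Fin n) ℂ,
      M.transpose = M ∧ UnitarilyEquivTTO M ∧ ¬ IsClarkMatrix M :=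
  ⟨cornerMatrix n, corner_symm n, corner_unitary hn, corner_not_clark hn⟩

end Pool.Agent.Results.MP_3119c3_an.NotClarkMatrix
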